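import Mathlib
import Pool.Agent.Helper9CC.Proj
import Pool.Agent.W910.FC.Collapse
import Pool.Agent.Y561.KS.Cohen

/-!
# Dense countably compact subgroups and metrizability: not provable in ZFC, nor in ZFC + MA

Under Martin's axiom for `ℵ₁` dense sets every countably compact subgroup `D` of a compact group
`G` of weight at most `ℵ₁` (abelian or not, `D` dense or not) is projectively `w`-compact. So the
non-metrizable compact abelian group `𝕋^ω₁` refutes the criterion.

Sketch. By Martin's axiom every point of the closure (in `G`) of a countable set `A ⊆ D` is the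
limit of a sequence in `A` or belongs to `A`, so the closure is contained in `D`: the group `D` is
`ω`-bounded. Let `L` be a Hausdorff group which is a continuous homomorphic image of `D`. Then `L`
is `ω`-bounded and totally bounded, and a compactness argument shows that `w(L) ≤ ℵ₁`. If
`w(L) ≤ ℵ₀`, then `L` is compact. Otherwise let `E_a`, `a < ω₁`, be a local base at `1`; there are
points `x_a ≠ 1` in the intersection of all `E_b`, `b ≤ a` (if not, `1` is a `G_δ` point of `L`,
`L` is first countable at `1` and `w(L) ≤ ℵ₀`). Each neighbourhood of `1` contains all but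
countably many `x_a`, and countable sets have compact closures; so the closure `C` of the set of
all `x_a` is compact, and `w(C) = ℵ₁` since `1` is not a `G_δ` point of `C`.

The forcing language used for the consistency statement is the one of
`Pool.Agent.Helper669.Forcing`; `MartinHolds P Om1` is the translation of `MartinFor Om1` into this
language (both in `Pool.Agent.W684.FM.Defs`); `ContinuumLe P Y` says that in the extension there is
a map from `Y` onto the set of all functions from the natural numbers to themselves.
-/

set_option autoImplicit false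

namespace Pool.Agent.Results.MP_6b4821_lc.NotProvable

open Cardinal Pool.Agent.Helper669.Forcing Pool.Agent.W684.FM

/-- The countable chain condition: every set of pairwise incompatible conditions is countable
(a smaller condition is stronger). -/
def IsCCC (P : Type) [Preorder P] : Prop :=
  ∀ A : Set P, (∀ p ∈ A, ∀ q ∈ A, p ≠ q → ¬ ∃ r : P, r ≤ p ∧ r ≤ q) → A.Countable

/-- Martin's axiom for `ℵ₁` dense sets: for every nonempty preordered set `P` with the countable
chain condition and every family of at most `ℵ₁` dense subsets of `P` there is a filter in `P`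
which meets each of them. -/
def MartinAxiomAleph1 : Prop :=
  ∀ (P : Type) [Preorder P] [Nonempty P], IsCCC P →
    ∀ 𝒟 : Set (Set P), #𝒟 ≤ ℵ₁ → (∀ D ∈ 𝒟, ∀ p : P, ∃ q ∈ D, q ≤ p) →
      ∃ G : Set P, G.Nonempty ∧ (∀ p ∈ G, ∀ q : P, p ≤ q → q ∈ G) ∧
        (∀ p ∈ G, ∀ q ∈ G, ∃ r ∈ G, r ≤ p ∧ r ≤ q) ∧ ∀ D ∈ 𝒟, (G ∩ D).Nonempty

/-- Martin's axiom `MA`: the same for families of fewer than `𝔠` dense subsets. -/
def MartinAxiom : Prop :=
  ∀ (P : Type) [Preorder P] [Nonempty P], IsCCC P →
    ∀ 𝒟 : Set (Set P), #𝒟 < 𝔠 → (∀ D ∈ 𝒟, ∀ p : P, ∃ q ∈ D, q ≤ p) →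
      ∃ G : Set P, G.Nonempty ∧ (∀ p ∈ G, ∀ q : P, p ≤ q → q ∈ G) ∧
        (∀ p ∈ G, ∀ q ∈ G, ∃ r ∈ G, r ≤ p ∧ r ≤ q) ∧ ∀ D ∈ 𝒟, (G ∩ D).Nonempty

/-- The weight of a topological space: the least cardinality of a base. -/
noncomputable def weight (X : Type) [TopologicalSpace X] : Cardinal.{0} :=
  sInf {κ | ∃ B : Set (Set X), TopologicalSpace.IsTopologicalBasis B ∧ #B = κ}

/-- `X` is `w`-compact: some compact subset of `X` has the same weight as `X`. -/
def WCompact (X : Type) [TopologicalSpace X] : Prop :=
  ∃ C : Set X, IsCompact C ∧ weight C = weight X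

/-- `H` is projectively `w`-compact: every (Hausdorff) topological group which is the image of `H`
under a continuous surjective homomorphism is `w`-compact. -/
def ProjectivelyWCompact (H : Type) [Group H] [TopologicalSpace H] : Prop :=
  ∀ (L : Type) [Group L] [TopologicalSpace L] [IsTopologicalGroup L] [T2Space L] (f : H →* L),
    Continuous f → Function.Surjective f → WCompact L

/-- The statement of the question: if every dense countably compact subgroup of the compact
abelian group `G` is projectively `w`-compact, then `G` is metrizable. -/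
def Criterion : Prop :=
  ∀ (G : Type) [CommGroup G] [TopologicalSpace G] [IsTopologicalGroup G] [CompactSpace G]
    [T2Space G],
    (∀ D : Subgroup G, Dense (D : Set G) → CountablyCompactSpace D → ProjectivelyWCompact D) →
      TopologicalSpace.MetrizableSpace G

/-- (1) There is a preordered set `P` of forcing conditions such that every condition forces that
`ω₁` is preserved, that Martin's axiom for `ℵ₁` dense sets holds and that the continuum is at most
`ℵ₂`; (2), (3) the plain forms of the latter two sentences; (4) together these two sentences imply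
Martin's axiom `MA` and the negation of the continuum hypothesis. (5) Martin's axiom for `ℵ₁` dense
sets implies that every countably compact subgroup of a compact group of weight at most `ℵ₁` is
projectively `w`-compact, (6) and that the criterion fails: `𝕋^ω₁` is a counterexample. -/
theorem result :
    (∃ (P : Type) (_ : Preorder P), Nonempty P ∧ ∀ p : P,
      p ∈ OmegaOnePreserved P ∧ p ∈ MartinHolds P Om1 ∧
        p ∈ ContinuumLe P (ℵ_ 2 : Cardinal.{0}).out) ∧
    (MartinFor Om1 ↔ MartinAxiomAleph1) ∧
    ((∃ E : (ℵ_ 2 : Cardinal.{0}).out → ℕ → ℕ, Function.Surjective E) ↔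
      (𝔠 : Cardinal.{0}) ≤ ℵ_ 2) ∧
    (MartinAxiomAleph1 → (𝔠 : Cardinal.{0}) ≤ ℵ_ 2 → MartinAxiom ∧ (ℵ₁ : Cardinal.{0}) < 𝔠) ∧
    (MartinAxiomAleph1 → ∀ (G : Type) [Group G] [TopologicalSpace G] [IsTopologicalGroup G]
      [CompactSpace G] [T2Space G], weight G ≤ ℵ₁ →
        ∀ D : Subgroup G, CountablyCompactSpace D → ProjectivelyWCompact D) ∧
    (MartinAxiomAleph1 →
      (¬ TopologicalSpace.MetrizableSpace (Om1 → Circle) ∧
        ∀ D : Subgroup (Om1 → Circle), CountablyCompactSpace D → ProjectivelyWCompact D) ∧
      ¬ Criterion) := by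
  have hmain : MartinAxiomAleph1 → ∀ (G : Type) [Group G] [TopologicalSpace G]
      [IsTopologicalGroup G] [CompactSpace G] [T2Space G], weight G ≤ ℵ₁ →
        ∀ D : Subgroup G, CountablyCompactSpace D → ProjectivelyWCompact D := by
    intro hMA G _ _ _ _ _ hG D hD L _ _ _ _ f hf hs
    exact Pool.Agent.Helper9CC.wcompact_image hMA hG D
      (isCountablyCompact_iff_countablyCompactSpace.2 hD) f hf hs
  have hT : MartinAxiomAleph1 → (¬ TopologicalSpace.MetrizableSpace (Om1 → Circle) ∧
        ∀ D : Subgroup (Om1 → Circle), CountablyCompactSpace D → ProjectivelyWCompact D) := by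
    intro hMA
    refine ⟨?_, fun D hD => hmain hMA (Om1 → Circle) ?_ D hD⟩
    · have hn : Nontrivial Circle := by
        refine ⟨⟨1, -1, ?_⟩⟩
        intro h
        have h1 := congrArg (fun z : Circle => (z : ℂ)) h
        norm_num at h1
      have hu : Uncountable Om1 := by
        rw [← Cardinal.aleph0_lt_mk_iff, mk_ord_toType]
        exact Cardinal.aleph0_lt_aleph_one
      exact Pool.Agent.Helper9CC.not_metrizable_pi hu
    · exact Pool.Agent.Helper9CC.weight_pi_le (Cardinal.aleph0_le_aleph 1) (mk_ord_toType _).le
  refine ⟨Pool.Agent.W910.FC.exists_forcing, martinFor_om1_iff, ?_, ?_, hmain,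
    fun hMA => ⟨hT hMA, fun hC => (hT hMA).1 (hC (Om1 → Circle) fun D _ hD => (hT hMA).2 D hD)⟩⟩
  · have h1 : #(ℕ → ℕ) = (𝔠 : Cardinal.{0}) := by
      simp
    constructor
    · rintro ⟨E, hE⟩
      have h2 := mk_le_of_surjective hE
      rwa [h1, mk_out] at h2
    · intro h
      rw [← h1, ← mk_out (ℵ_ 2)] at h
      obtain ⟨e⟩ := h
      exact ⟨Function.invFun e, Function.invFun_surjective e.injective⟩
  · intro hMA hc
    refine ⟨?_, Pool.Agent.Y561.KS.aleph_one_lt_of_ma hMA⟩
    intro P _ _ hP 𝒟 h𝒟 hD
    refine hMA P hP 𝒟 ?_ hD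
    have h2 : Order.succ (ℵ₁ : Cardinal.{0}) = ℵ_ 2 := by
      rw [Cardinal.succ_aleph]
      norm_num
    have h3 := h𝒟.trans_le hc
    rw [← h2] at h3
    exact Order.lt_succ_iff.1 h3

end Pool.Agent.Results.MP_6b4821_lc.NotProvable
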